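import Mathlib

set_option autoImplicit false

/-!
Permutations of the finite words over five letters: rooted permutations, the wreath recursion and
the directed permutations `β c`.
-/

namespace Pool.Agent.U123.FA

open Equiv

/-- five letters -/
abbrev X := Fin 5

/-- permutations of the finite words -/
abbrev P := Perm (List X)

/-- the rooted function -/
def rtf (a : Perm X) : List X → List X
  | [] => []
  | x :: w => a x :: w

/-- rooted permutations -/
def rt : Perm X →* P where
  toFun a :=
    { toFun := rtf a
      invFun := rtf a⁻¹
      left_inv := by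
        intro w
        cases w <;> simp [rtf]
      right_inv := by
        intro w
        cases w <;> simp [rtf] }
  map_one' := by
    ext1 w
    cases w <;> rfl
  map_mul' a b := by
    ext1 w
    cases w <;> rfl

@[simp] lemma rt_nil (a : Perm X) : rt a [] = [] := rfl
@[simp] lemma rt_cons (a : Perm X) (x : X) (w : List X) : rt a (x :: w) = a x :: w := rfl

/-- the wreath function -/
def Jf (f : X → P) : List X → List X
  | [] => []
  | x :: w => x :: f x w

/-- the wreath recursion -/
def J : (X → P) →* P where
  toFun f :=
    { toFun := Jf f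
      invFun := Jf f⁻¹
      left_inv := by
        intro w
        cases w <;> simp [Jf]
      right_inv := by
        intro w
        cases w <;> simp [Jf] }
  map_one' := by
    ext1 w
    cases w <;> rfl
  map_mul' a b := by
    ext1 w
    cases w <;> rfl

@[simp] lemma J_nil (f : X → P) : J f [] = [] := rfl
@[simp] lemma J_cons (f : X → P) (x : X) (w : List X) : J f (x :: w) = x :: f x w := rfl

lemma J_injective : Function.Injective J := by
  intro f g h
  funext x
  ext1 w
  have h1 := congrArg (fun e : P => e (x :: w)) h
  simpa using h1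

/-- conjugation of a wreath element by a rooted element -/
lemma rt_J (a : Perm X) (f : X → P) : rt a * J f = J (fun x => f (a⁻¹ x)) * rt a := by
  ext1 w
  cases w with
  | nil => rfl
  | cons x w => simp [Perm.mul_apply]

lemma rt_J_inv (a : Perm X) (f : X → P) : rt a * J f * (rt a)⁻¹ = J (fun x => f (a⁻¹ x)) := by
  rw [rt_J, mul_inv_cancel_right]

/-- one copy -/
def δ (x : X) : P →* P := J.comp (MonoidHom.mulSingle (fun _ : X => P) x)

lemma δ_apply (x : X) (h : P) : δ x h = J (Pi.mulSingle x h) := rfl

@[simp] lemma δ_nil (x : X) (h : P) : δ x h [] = [] := rfl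

lemma δ_cons_self (x : X) (h : P) (w : List X) : δ x h (x :: w) = x :: h w := by
  rw [δ_apply, J_cons, Pi.mulSingle_eq_same]

lemma δ_cons_ne {x y : X} (hxy : y ≠ x) (h : P) (w : List X) : δ x h (y :: w) = y :: w := by
  rw [δ_apply, J_cons, Pi.mulSingle_eq_of_ne hxy]
  rfl

lemma δ_injective (x : X) : Function.Injective (δ x) := by
  intro g h hgh
  ext1 w
  have h1 := congrArg (fun e : P => e (x :: w)) hgh
  simp only [δ_cons_self] at h1
  exact (List.cons_injective h1)

lemma δ_comm {x y : X} (hxy : x ≠ y) (g h : P) : δ x g * δ y h = δ y h * δ x g := by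
  rw [δ_apply, δ_apply, ← map_mul, ← map_mul]
  congr 1
  exact (Pi.mulSingle_commute (f := fun _ : X => P) hxy g h).eq

lemma rt_δ (a : Perm X) (x : X) (h : P) : rt a * δ x h * (rt a)⁻¹ = δ (a x) h := by
  rw [δ_apply, rt_J_inv, δ_apply]
  congr 1
  funext y
  by_cases hy : y = a x
  · subst hy
    have e : a⁻¹ (a x) = x := by simp
    rw [e, Pi.mulSingle_eq_same, Pi.mulSingle_eq_same]
  · rw [Pi.mulSingle_eq_of_ne hy, Pi.mulSingle_eq_of_ne]
    intro h1
    apply hy
    rw [← h1]
    simp

/-- the shift -/
def shift (c : ℕ → Perm X) : ℕ → Perm X := fun n => c (n + 1)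

lemma shift_mul (c d : ℕ → Perm X) : shift (c * d) = shift c * shift d := rfl
lemma shift_one : shift 1 = 1 := rfl
lemma shift_inv (c : ℕ → Perm X) : shift c⁻¹ = (shift c)⁻¹ := rfl

/-- the directed function -/
def bf : List X → (ℕ → Perm X) → List X
  | [], _ => []
  | x :: w, c => if x = 0 then x :: bf w (shift c) else if x = 1 then x :: rt (c 0) w else x :: w

lemma bf_mul (w : List X) : ∀ c d : ℕ → Perm X, bf w (c * d) = bf (bf w d) c := by
  induction w with
  | nil => intro c d; rfl
  | cons x w ih =>
    intro c d
    by_cases h0 : x = 0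
    · subst h0
      simp [bf, shift_mul, ih]
    · by_cases h1 : x = 1
      · subst h1
        simp [bf]
      · simp [bf, h0, h1]

lemma bf_one (w : List X) : bf w 1 = w := by
  induction w with
  | nil => rfl
  | cons x w ih =>
    by_cases h0 : x = 0
    · subst h0
      simp [bf, shift_one, ih]
    · by_cases h1 : x = 1
      · subst h1
        simp [bf]
      · simp [bf, h0, h1]

/-- the directed permutations -/
def β : (ℕ → Perm X) →* P where
  toFun c :=
    { toFun := fun w => bf w c
      invFun := fun w => bf w c⁻¹
      left_inv := by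
        intro w
        show bf (bf w c) c⁻¹ = w
        rw [← bf_mul, inv_mul_cancel, bf_one]
      right_inv := by
        intro w
        show bf (bf w c⁻¹) c = w
        rw [← bf_mul, mul_inv_cancel, bf_one] }
  map_one' := by
    ext1 w
    exact bf_one w
  map_mul' c d := by
    ext1 w
    exact bf_mul w c d

lemma β_apply (c : ℕ → Perm X) (w : List X) : β c w = bf w c := rfl

/-- the sections of `β c` -/
def bsec (c : ℕ → Perm X) : X → P :=
  fun x => if x = 0 then β (shift c) else if x = 1 then rt (c 0) else 1

lemma β_eq (c : ℕ → Perm X) : β c = J (bsec c) := by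
  ext1 w
  cases w with
  | nil => rfl
  | cons x w =>
    rw [J_cons, β_apply, bf, bsec]
    by_cases h0 : x = 0
    · rw [if_pos h0, if_pos h0, β_apply]
    · rw [if_neg h0, if_neg h0]
      by_cases h1 : x = 1
      · rw [if_pos h1, if_pos h1]
      · rw [if_neg h1, if_neg h1]
        rfl

lemma β_injective : Function.Injective β := by
  have key : ∀ (n : ℕ) (c d : ℕ → Perm X), β c = β d → c n = d n := by
    intro n
    induction n with
    | zero =>
      intro c d h
      rw [β_eq, β_eq] at h
      have h1 := congrFun (J_injective h) 1
      ext1 x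
      have h2 := congrArg (fun e : P => e [x]) h1
      simpa [bsec] using h2
    | succ n ih =>
      intro c d h
      rw [β_eq, β_eq] at h
      have h1 := congrFun (J_injective h) 0
      exact ih (shift c) (shift d) (by simpa [bsec] using h1)
  intro c d h
  funext n
  exact key n c d h

end Pool.Agent.U123.FA
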