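import Pool.Agent.U123.FA.Gen

set_option autoImplicit false

/-!
Nontrivial normal subgroups of the branch groups contain level stabilizers.
-/

namespace Pool.Agent.U123.FA

open Equiv
open scoped commutatorElement

/-- the copy of the group at the word `v` -/
def δv : List X → P →* P
  | [] => MonoidHom.id P
  | x :: v => (δ x).comp (δv v)

lemma δv_append (v : List X) (h : P) (u : List X) : δv v h (v ++ u) = v ++ h u := by
  induction v with
  | nil => rfl
  | cons x v ih =>
    show δ x (δv v h) (x :: (v ++ u)) = _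
    rw [δ_cons_self, ih]
    rfl

lemma δv_fix (v : List X) (h : P) (w : List X) (hw : ¬ v <+: w) : δv v h w = w := by
  induction v generalizing w with
  | nil => exact absurd (List.nil_prefix) hw
  | cons x v ih =>
    show δ x (δv v h) w = w
    cases w with
    | nil => rfl
    | cons y w =>
      by_cases hxy : y = x
      · subst hxy
        rw [δ_cons_self, ih]
        intro h1
        exact hw ((List.prefix_cons_inj y).2 h1)
      · rw [δ_cons_ne hxy]

variable {K : Subgroup P}

lemma Branch.J_mem (hK : Branch K) (f : X → P) (hf : ∀ x, f x ∈ K) : J f ∈ K := by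
  have h1 : f ∈ K.comap J := by
    apply Subgroup.pi_mem_of_mulSingle_mem
    intro x
    exact hK.δ_mem x _ (hf x)
  exact h1

lemma Branch.δv_mem (hK : Branch K) (v : List X) {h : P} (hh : h ∈ K) : δv v h ∈ K := by
  induction v with
  | nil => exact hh
  | cons x v ih => exact hK.δ_mem x _ ih

lemma Branch.length (hK : Branch K) (w : List X) : ∀ {h : P}, h ∈ K → (h w).length = w.length := by
  induction w with
  | nil =>
    intro h hh
    obtain ⟨f, a, hf, ha, rfl⟩ := hK.dec h hh
    rfl
  | cons x w ih =>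
    intro h hh
    obtain ⟨f, a, hf, ha, rfl⟩ := hK.dec h hh
    rw [Perm.mul_apply, rt_cons, J_cons, List.length_cons, ih (hf _), List.length_cons]

lemma Branch.beginning (hK : Branch K) (v : List X) : ∀ {h : P}, h ∈ K → ∀ u : List X,
    h v <+: h (v ++ u) := by
  induction v with
  | nil =>
    intro h hh u
    obtain ⟨f, a, hf, ha, rfl⟩ := hK.dec h hh
    exact List.nil_prefix
  | cons x v ih =>
    intro h hh u
    obtain ⟨f, a, hf, ha, rfl⟩ := hK.dec h hh
    rw [List.cons_append, Perm.mul_apply, Perm.mul_apply, rt_cons, J_cons, rt_cons, J_cons]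
    exact (List.prefix_cons_inj _).2 (ih (hf _) u)

/-- rigid translations -/
lemma Branch.rigid (hK : Branch K) (v : List X) : ∀ u : List X, v.length = u.length →
    ∃ t ∈ K, ∀ w, t (v ++ w) = u ++ w := by
  induction v with
  | nil =>
    intro u hu
    have : u = [] := List.eq_nil_of_length_eq_zero hu.symm
    subst this
    exact ⟨1, one_mem _, fun w => rfl⟩
  | cons x v ih =>
    intro u hu
    cases u with
    | nil => simp at hu
    | cons y u =>
      obtain ⟨t, ht, htw⟩ := ih u (by simpa using hu)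
      obtain ⟨a, ha, hax⟩ := A5_trans x y
      refine ⟨δ y t * rt a, mul_mem (hK.δ_mem y t ht) (hK.rt_mem a ha), fun w => ?_⟩
      rw [Perm.mul_apply, List.cons_append, rt_cons, hax, δ_cons_self, htw]
      rfl

lemma disjoint_comm {v v' : List X} (hlen : v.length = v'.length) (hne : v ≠ v') {D E : P}
    (hD : ∀ w, ¬ v' <+: w → D w = w) (hE : ∀ w, ¬ v <+: w → E w = w) : D * E = E * D := by
  apply Perm.Disjoint.commute
  intro w
  by_cases h : v <+: w
  · left
    apply hD
    intro h'
    obtain ⟨s, hs⟩ := h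
    obtain ⟨s', hs'⟩ := h'
    apply hne
    have h1 : v ++ s = v' ++ s' := by rw [hs, hs']
    exact (List.append_inj h1 hlen).1
  · right
    exact hE w h

/-- **nontrivial normal subgroups contain level stabilizers** -/
theorem Branch.nst (hK : Branch K) (M : Subgroup P)
    (hnorm : ∀ k ∈ K, ∀ m ∈ M, k * m * k⁻¹ ∈ M) {g : P} (hgK : g ∈ K) (hgM : g ∈ M) (hg : g ≠ 1) :
    ∃ n : ℕ, ∀ h ∈ K, (∀ w : List X, w.length = n → h w = w) → h ∈ M := by
  obtain ⟨v, hv⟩ : ∃ v, g v ≠ v := by
    by_contra hcon
    push Not at hcon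
    exact hg (Equiv.ext hcon)
  -- the double commutator
  have h1 : ∀ h ∈ K, ∀ k ∈ K, δv v ⁅h, k⁆ ∈ M := by
    intro h hh k hk
    set D : P := δv v h⁻¹ with hD
    set E : P := δv v k with hE
    set D' : P := g * D * g⁻¹ with hD'
    have hD'fix : ∀ w, ¬ g v <+: w → D' w = w := by
      intro w hw
      have h2 : ¬ v <+: g⁻¹ w := by
        rintro ⟨s, hs⟩
        apply hw
        have h3 := hK.beginning v hgK s
        rw [hs] at h3
        simpa using h3
      rw [hD', Perm.mul_apply, Perm.mul_apply, hD, δv_fix v _ _ h2]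
      simp
    have hlen : v.length = (g v).length := (hK.length v hgK).symm
    have c1 : D' * E = E * D' :=
      disjoint_comm hlen (fun h => hv h.symm) hD'fix (fun w hw => δv_fix v _ w hw)
    have c2 : D' * D = D * D' :=
      disjoint_comm hlen (fun h => hv h.symm) hD'fix (fun w hw => δv_fix v _ w hw)
    have hmem1 : ⁅g, D⁆ ∈ M := by
      have h3 : D * g⁻¹ * D⁻¹ ∈ M := hnorm D (hK.δv_mem v (inv_mem hh)) _ (inv_mem hgM)
      have h4 : ⁅g, D⁆ = g * (D * g⁻¹ * D⁻¹) := by
        rw [commutatorElement_def]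
        group
      rw [h4]
      exact mul_mem hgM h3
    have hmem2 : ⁅⁅g, D⁆, E⁆ ∈ M := by
      have h3 : E * ⁅g, D⁆⁻¹ * E⁻¹ ∈ M := hnorm E (hK.δv_mem v hk) _ (inv_mem hmem1)
      have h4 : ⁅⁅g, D⁆, E⁆ = ⁅g, D⁆ * (E * ⁅g, D⁆⁻¹ * E⁻¹) := by
        rw [commutatorElement_def (⁅g, D⁆)]
        group
      rw [h4]
      exact mul_mem hmem1 h3
    have h5 : ⁅⁅g, D⁆, E⁆ = ⁅D⁻¹, E⁆ := by
      have h6 : ⁅g, D⁆ = D' * D⁻¹ := by
        rw [commutatorElement_def, hD']
      rw [h6, commutatorElement_def, commutatorElement_def]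
      have c2' : D' * D⁻¹ = D⁻¹ * D' := by
        calc D' * D⁻¹ = D⁻¹ * (D * D') * D⁻¹ := by group
          _ = D⁻¹ * (D' * D) * D⁻¹ := by rw [c2]
          _ = D⁻¹ * D' := by group
      calc D' * D⁻¹ * E * (D' * D⁻¹)⁻¹ * E⁻¹ = D⁻¹ * D' * E * (D⁻¹ * D')⁻¹ * E⁻¹ := by rw [c2']
        _ = D⁻¹ * (D' * E) * D'⁻¹ * D * E⁻¹ := by group
        _ = D⁻¹ * (E * D') * D'⁻¹ * D * E⁻¹ := by rw [c1]
        _ = D⁻¹ * E * D⁻¹⁻¹ * E⁻¹ := by group
    rw [h5] at hmem2
    have h7 : D⁻¹ = δv v h := by rw [hD, map_inv, inv_inv]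
    rw [h7, hE, ← map_commutatorElement] at hmem2
    exact hmem2
  have h2 : ∀ h ∈ K, δv v h ∈ M := by
    have h3 : ⁅K, K⁆ ≤ M.comap (δv v) := by
      rw [Subgroup.commutator_le]
      intro h hh k hk
      exact h1 h hh k hk
    intro h hh
    exact h3 (hK.perf hh)
  have h3 : ∀ u : List X, u.length = v.length → ∀ h ∈ K, δv u h ∈ M := by
    intro u hu h hh
    obtain ⟨t, ht, htw⟩ := hK.rigid v u hu.symm
    have h4 : t * δv v h * t⁻¹ = δv u h := by
      ext1 w
      rw [Perm.mul_apply, Perm.mul_apply]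
      by_cases hw : u <+: w
      · obtain ⟨s, rfl⟩ := hw
        have h5 : t⁻¹ (u ++ s) = v ++ s := by
          rw [Perm.inv_eq_iff_eq, htw]
        rw [h5, δv_append, htw, δv_append]
      · rw [δv_fix u h w hw]
        have h5 : ¬ v <+: t⁻¹ w := by
          rintro ⟨s, hs⟩
          apply hw
          refine ⟨s, ?_⟩
          rw [← htw, hs]
          simp
        rw [δv_fix v h _ h5]
        simp
    rw [← h4]
    exact hnorm t ht _ (h2 h hh)
  -- the level stabilizer
  have h4 : ∀ (n : ℕ) (L : Subgroup P), (∀ u : List X, u.length = n → ∀ h ∈ K, δv u h ∈ L) →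
      ∀ h ∈ K, (∀ w : List X, w.length = n → h w = w) → h ∈ L := by
    intro n
    induction n with
    | zero =>
      intro L hL h hh _
      exact hL [] rfl h hh
    | succ n ih =>
      intro L hL h hh hw
      obtain ⟨f, a, hf, ha, rfl⟩ := hK.dec h hh
      have ha1 : a = 1 := by
        ext1 x
        have h5 := hw (x :: List.replicate n 0) (by simp)
        rw [Perm.mul_apply, rt_cons, J_cons] at h5
        exact (List.cons.inj h5).1
      subst ha1
      rw [map_one, mul_one] at hw ⊢
      have h6 : f ∈ L.comap J := by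
        apply Subgroup.pi_mem_of_mulSingle_mem
        intro x
        show δ x (f x) ∈ L
        refine ih (L.comap (δ x)) (fun u hu h hh => ?_) (f x) (hf x) (fun w hwl => ?_)
        · exact hL (x :: u) (by simp [hu]) h hh
        · have h7 := hw (x :: w) (by simp [hwl])
          rw [J_cons] at h7
          exact (List.cons.inj h7).2
      exact h6
  exact ⟨v.length, h4 _ M h3⟩

/-- the smaller group has the same action on the levels -/
theorem Branch.agree {K₁ K₂ : Subgroup P} (h₁ : Branch K₁) (h₂ : Branch K₂) (n : ℕ) :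
    ∀ h ∈ K₂, ∃ g ∈ K₁, ∀ w : List X, w.length = n → g w = h w := by
  induction n with
  | zero =>
    intro h hh
    refine ⟨1, one_mem _, fun w hw => ?_⟩
    have : w = [] := List.eq_nil_of_length_eq_zero hw
    subst this
    have := h₂.length [] hh
    exact (List.eq_nil_of_length_eq_zero this).symm
  | succ n ih =>
    intro h hh
    obtain ⟨f, a, hf, ha, rfl⟩ := h₂.dec h hh
    choose g hg hgw using fun x => ih (f x) (hf x)
    refine ⟨J g * rt a, mul_mem (h₁.J_mem g hg) (h₁.rt_mem a ha), fun w hw => ?_⟩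
    cases w with
    | nil => rfl
    | cons x w =>
      rw [Perm.mul_apply, Perm.mul_apply, rt_cons, J_cons, J_cons, hgw _ w (by simpa using hw)]

/-- the branch groups are infinite -/
theorem Branch.infinite (hK : Branch K) : Infinite K := by
  by_contra hfin
  rw [not_infinite_iff_finite] at hfin
  let d : K → K := fun h => ⟨δ 0 (h : P), hK.δ_mem 0 _ h.2⟩
  have hinj : Function.Injective d := by
    intro g h hgh
    have := congrArg Subtype.val hgh
    exact Subtype.ext (δ_injective 0 this)
  have hsur := Finite.injective_iff_surjective.1 hinj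
  obtain ⟨a, ha, ha0⟩ := A5_trans 0 1
  obtain ⟨h, hh⟩ := hsur ⟨rt a, hK.rt_mem a ha⟩
  have h1 : δ 0 (h : P) = rt a := congrArg Subtype.val hh
  have h2 := congrArg (fun e : P => e [0]) h1
  simp only [δ_cons_self, rt_cons, ha0] at h2
  have h3 := (List.cons.inj h2).1
  exact absurd h3 (by decide)

end Pool.Agent.U123.FA
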