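import Mathlib

set_option autoImplicit false

/-!
A strictly increasing union of subgroups acts on a tree without a fixed vertex.
-/

namespace Pool.Agent.U123.FA

open SimpleGraph

/-- the graph of a parent map is a tree -/
theorem isTree_of_par {V : Type} [Nonempty V] (lev : V → ℕ) (par : V → V)
    (hlev : ∀ v, lev (par v) = lev v + 1) (T : SimpleGraph V)
    (hT : ∀ v w, T.Adj v w ↔ par v = w ∨ par w = v)
    (hconn : ∀ v w, ∃ m n, par^[m] v = par^[n] w) : T.IsTree := by
  have hiter : ∀ (n : ℕ) v, lev (par^[n] v) = lev v + n := by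
    intro n
    induction n with
    | zero => intro v; rfl
    | succ n ih =>
      intro v
      rw [Function.iterate_succ_apply, ih, hlev]
      omega
  have hreach : ∀ (n : ℕ) v, T.Reachable v (par^[n] v) := by
    intro n
    induction n with
    | zero => intro v; exact Reachable.refl _
    | succ n ih =>
      intro v
      rw [Function.iterate_succ_apply]
      exact (((hT v (par v)).2 (Or.inl rfl)).reachable).trans (ih (par v))
  have hpre : T.Preconnected := by
    intro v w
    obtain ⟨m, n, h⟩ := hconn v w
    have h1 := hreach m v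
    rw [h] at h1
    exact h1.trans (hreach n w).symm
  refine ⟨⟨hpre⟩, ?_⟩
  -- edges to the parent are bridges
  have hbr : ∀ v, ¬ (T \ fromEdgeSet {s(v, par v)}).Reachable v (par v) := by
    intro v hr
    have key : ∀ u w, (T \ fromEdgeSet {s(v, par v)}).Reachable u w →
        (∃ n, par^[n] u = v) → ∃ n, par^[n] w = v := by
      rintro u w ⟨p⟩
      induction p with
      | nil => exact id
      | @cons a b c hab p ih =>
        rintro ⟨n, hn⟩
        apply ih
        rw [sdiff_adj, fromEdgeSet_adj] at hab
        rcases (hT a b).1 hab.1 with h | h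
        · rcases n with _ | n
          · exfalso
            have hav : a = v := hn
            apply hab.2
            refine ⟨?_, hab.1.ne⟩
            rw [← hav, h]
            rfl
          · refine ⟨n, ?_⟩
            rw [Function.iterate_succ_apply, h] at hn
            exact hn
        · refine ⟨n + 1, ?_⟩
          rw [Function.iterate_succ_apply, h]
          exact hn
    obtain ⟨n, hn⟩ := key v (par v) hr ⟨0, rfl⟩
    have h1 := hiter n (par v)
    rw [hn, hlev] at h1
    omega
  rw [isAcyclic_iff_forall_adj_isBridge]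
  intro v w hvw
  rw [isBridge_iff]
  rcases (hT v w).1 hvw with h | h
  · have := hbr v
    rw [h] at this
    exact this
  · have := hbr w
    rw [h] at this
    rw [Sym2.eq_swap]
    exact fun hr => this hr.symm

/-- a strictly increasing union does not have property (FA) -/
theorem not_fa_of_chain {H : Type} [Group H] (K : ℕ → Subgroup H) (hmono : ∀ n, K n ≤ K (n + 1))
    (hunion : ∀ h, ∃ n, h ∈ K n) (hne : ∀ n, ∃ h, h ∉ K n) :
    ∃ (V : Type) (_ : MulAction H V) (T : SimpleGraph V), T.IsTree ∧
      (∀ h : H, ∀ x y : V, T.Adj x y → T.Adj (h • x) (h • y)) ∧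
      (∀ h : H, ∀ x y : V, T.Adj x y → ¬ (h • x = y ∧ h • y = x)) ∧
      ¬ ∃ v : V, ∀ h : H, h • v = v := by
  let V := Σ n : ℕ, H ⧸ K n
  let par : V → V := fun v => ⟨v.1 + 1, Subgroup.quotientMapOfLE (hmono v.1) v.2⟩
  let act : MulAction H V := inferInstanceAs (MulAction H (Σ n : ℕ, H ⧸ K n))
  have hsmul : ∀ (h g : H) (n : ℕ), h • (⟨n, (g : H ⧸ K n)⟩ : V) = ⟨n, ((h * g : H) : H ⧸ K n)⟩ :=
    fun h g n => rfl
  have hpar : ∀ (n : ℕ) (g : H), par ⟨n, (g : H ⧸ K n)⟩ = ⟨n + 1, (g : H ⧸ K (n + 1))⟩ :=
    fun n g => rfl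
  have hparsmul : ∀ (h : H) (v : V), par (h • v) = h • par v := by
    rintro h ⟨n, q⟩
    induction q using QuotientGroup.induction_on with
    | H g => rfl
  let T : SimpleGraph V :=
    { Adj := fun v w => par v = w ∨ par w = v
      symm := ⟨fun v w h => h.symm⟩
      loopless := ⟨fun v h => by
        have h1 : par v = v := by rcases h with h | h <;> exact h
        have h2 : v.1 + 1 = v.1 := congrArg Sigma.fst h1
        omega⟩ }
  have hnonempty : Nonempty V := ⟨⟨0, ((1 : H) : H ⧸ K 0)⟩⟩
  have hiter : ∀ (m n : ℕ) (g : H), par^[m] ⟨n, (g : H ⧸ K n)⟩ = ⟨n + m, (g : H ⧸ K (n + m))⟩ := by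
    intro m
    induction m with
    | zero => intro n g; rfl
    | succ m ih =>
      intro n g
      rw [Function.iterate_succ_apply', ih]
      rfl
  have hmono' : ∀ m n, m ≤ n → K m ≤ K n := fun m n h => monotone_nat_of_le_succ hmono h
  have htree : T.IsTree := by
    refine isTree_of_par (fun v => v.1) par (fun v => rfl) T (fun v w => Iff.rfl) ?_
    rintro ⟨n, q⟩ ⟨n', q'⟩
    induction q using QuotientGroup.induction_on with
    | H g =>
      induction q' using QuotientGroup.induction_on with
      | H g' =>
        obtain ⟨k, hk⟩ := hunion (g⁻¹ * g')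
        refine ⟨n' + k, n + k, ?_⟩
        rw [hiter, hiter]
        have e : n + (n' + k) = n' + (n + k) := by omega
        rw [e]
        congr 1
        rw [QuotientGroup.eq]
        exact hmono' k _ (by omega) hk
  refine ⟨V, act, T, htree, ?_, ?_, ?_⟩
  · rintro h x y (h1 | h1)
    · left
      rw [hparsmul, h1]
    · right
      rw [hparsmul, h1]
  · rintro h x y (h1 | h1) ⟨h2, h3⟩
    · have e1 : (par x).1 = y.1 := congrArg Sigma.fst h1
      have e2 : (h • x).1 = y.1 := congrArg Sigma.fst h2
      have e2 : x.1 = y.1 := e2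
      have e3 : x.1 + 1 = y.1 := e1
      omega
    · have e1 : (par y).1 = x.1 := congrArg Sigma.fst h1
      have e2 : (h • x).1 = y.1 := congrArg Sigma.fst h2
      have e2 : x.1 = y.1 := e2
      have e3 : y.1 + 1 = x.1 := e1
      omega
  · rintro ⟨⟨n, q⟩, hq⟩
    induction q using QuotientGroup.induction_on with
    | H g =>
      obtain ⟨h, hh⟩ := hne n
      have h1 := hq (g * h * g⁻¹)
      rw [hsmul] at h1
      have h2 : ((g * h * g⁻¹ * g : H) : H ⧸ K n) = (g : H ⧸ K n) := by
        have := (Sigma.mk.inj_iff.1 h1).2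
        exact eq_of_heq this
      rw [QuotientGroup.eq] at h2
      apply hh
      have h3 := (K n).inv_mem h2
      have h4 : ((g * h * g⁻¹ * g)⁻¹ * g)⁻¹ = h := by group
      rwa [h4] at h3

end Pool.Agent.U123.FA
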