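import Pool.Agent.U123.FA.Tree

set_option autoImplicit false

/-!
A criterion for property (FA): a group generated by two finite subgroups which contains commuting
copies of itself, permuted by one of the finite subgroups, fixes a vertex of every tree.
-/

namespace Pool.Agent.U123.FA

open SimpleGraph

variable {V : Type} {T : SimpleGraph V} {G : Type} [Group G] [MulAction G V]

lemma Act.fix_finite (hA : Act G V T) (Γ : Subgroup G) [Finite Γ] : (Fix V (Γ : Set G)).Nonempty := by
  haveI := hA.tree.connected.nonempty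
  obtain ⟨v, -, h⟩ := hA.finite_fix Γ (F := Set.univ) conv_univ Set.univ_nonempty
    (fun _ _ _ _ => trivial)
  exact ⟨v, h⟩

/-- commuting sets: the fixed vertices are preserved -/
lemma fix_comm {K L : Set G} (h : ∀ k ∈ K, ∀ l ∈ L, l * k = k * l) :
    ∀ k ∈ K, ∀ v ∈ Fix V L, k • v ∈ Fix V L := by
  intro k hk v hv l hl
  rw [← mul_smul, h k hk l hl, mul_smul, hv l hl]

theorem fa_crit {X : Type} [Fintype X] [DecidableEq X] (A B : Subgroup G) [Finite A] [Finite B]
    (hAB : A ⊔ B = ⊤) (δ : X → G →* G)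
    (hcomm : ∀ x y, x ≠ y → ∀ g h, δ x g * δ y h = δ y h * δ x g)
    (hconj : ∀ a ∈ A, ∀ x, ∃ y, ∀ g, a * δ x g * a⁻¹ = δ y g)
    (htrans : ∀ x y, ∃ a ∈ A, ∀ g, a * δ x g * a⁻¹ = δ y g)
    (x₀ x₁ : X) (h01 : x₀ ≠ x₁) (hgen : A ⊔ ⨆ x, (δ x).range = ⊤) (hA : Act G V T) :
    ∃ v : V, ∀ g : G, g • v = v := by
  classical
  -- fixed vertices of one factor
  have hone : ∃ z, (Fix V ((δ z).range : Set G)).Nonempty := by
    haveI : Finite (A.map (δ x₀)) := by
      have : (A.map (δ x₀) : Set G).Finite := by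
        rw [Subgroup.coe_map]
        exact (Set.toFinite (A : Set G)).image _
      exact this.to_subtype
    haveI : Finite (B.map (δ x₀)) := by
      have : (B.map (δ x₀) : Set G).Finite := by
        rw [Subgroup.coe_map]
        exact (Set.toFinite (B : Set G)).image _
      exact this.to_subtype
    by_cases hd : Disjoint (Fix V ((A.map (δ x₀) : Subgroup G) : Set G))
      (Fix V ((B.map (δ x₀) : Subgroup G) : Set G))
    · refine ⟨x₁, ?_⟩
      obtain ⟨p, -, hp⟩ := hA.fix_bridge (hA.conv_fix _) (hA.conv_fix _)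
        (hA.fix_finite (A.map (δ x₀))) (hA.fix_finite (B.map (δ x₀))) hd ((δ x₁).range : Set G)
        (fix_comm (by
          rintro _ ⟨k, rfl⟩ _ ⟨l, -, rfl⟩
          exact hcomm _ _ h01 _ _))
        (fix_comm (by
          rintro _ ⟨k, rfl⟩ _ ⟨l, -, rfl⟩
          exact hcomm _ _ h01 _ _))
      exact ⟨p, hp⟩
    · rw [Set.not_disjoint_iff] at hd
      obtain ⟨p, hp1, hp2⟩ := hd
      refine ⟨x₀, p, ?_⟩
      have h1 : A ⊔ B ≤ (MulAction.stabilizer G p).comap (δ x₀) := by
        apply sup_le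
        · intro a ha
          exact hp1 _ ⟨a, ha, rfl⟩
        · intro b hb
          exact hp2 _ ⟨b, hb, rfl⟩
      rw [hAB] at h1
      rintro _ ⟨g, rfl⟩
      exact h1 (Subgroup.mem_top g)
  have hall : ∀ x, (Fix V ((δ x).range : Set G)).Nonempty := by
    intro x
    obtain ⟨z, v, hv⟩ := hone
    obtain ⟨a, -, ha⟩ := htrans z x
    refine ⟨a • v, ?_⟩
    rintro _ ⟨g, rfl⟩
    rw [← ha g, mul_smul, mul_smul, inv_smul_smul, hv _ ⟨g, rfl⟩]
  -- common fixed vertices
  have hfin : ∀ S : Finset X, (Fix V {g : G | ∃ x ∈ S, g ∈ (δ x).range}).Nonempty := by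
    intro S
    induction S using Finset.induction_on with
    | empty =>
      haveI := hA.tree.connected.nonempty
      exact ⟨Classical.arbitrary V, fun k ⟨x, hx, _⟩ => absurd hx (Finset.notMem_empty x)⟩
    | insert y S hy ih =>
      have hnd : ¬ Disjoint (Fix V {g : G | ∃ x ∈ S, g ∈ (δ x).range})
          (Fix V ((δ y).range : Set G)) := by
        intro hd
        obtain ⟨p, hp1, hp2⟩ := hA.fix_bridge (hA.conv_fix _) (hA.conv_fix _) ih (hall y) hd
          ((δ y).range : Set G)
          (fix_comm (by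
            rintro _ ⟨k, rfl⟩ _ ⟨x, hx, l, rfl⟩
            exact hcomm x y (fun h => hy (h ▸ hx)) _ _))
          (by
            intro k hk v hv
            rw [hv k hk]
            exact hv)
        exact Set.disjoint_left.1 hd hp1 hp2
      rw [Set.not_disjoint_iff] at hnd
      obtain ⟨p, hp1, hp2⟩ := hnd
      refine ⟨p, ?_⟩
      rintro k ⟨x, hx, hk⟩
      rcases Finset.mem_insert.1 hx with rfl | hx
      · exact hp2 k hk
      · exact hp1 k ⟨x, hx, hk⟩
  obtain ⟨v, hv, hvA⟩ := hA.finite_fix A (hA.conv_fix _) (hfin Finset.univ) (by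
    rintro a ha v hv _ ⟨x, -, g, rfl⟩
    obtain ⟨y, hy⟩ := hconj a⁻¹ (A.inv_mem ha) x
    have h1 := hy g
    rw [inv_inv] at h1
    have h2 : δ x g * a = a * δ y g := by
      rw [← h1]
      group
    rw [← mul_smul, h2, mul_smul, hv _ ⟨y, Finset.mem_univ _, g, rfl⟩])
  refine ⟨v, fun g => ?_⟩
  have h1 : A ⊔ ⨆ x, (δ x).range ≤ MulAction.stabilizer G v := by
    apply sup_le
    · intro a ha
      exact hvA a ha
    · apply iSup_le
      rintro x _ ⟨g, rfl⟩
      exact hv _ ⟨x, Finset.mem_univ _, g, rfl⟩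
  rw [hgen] at h1
  exact h1 (Subgroup.mem_top g)

end Pool.Agent.U123.FA
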