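import Pool.Agent.U123.FA.Basic

set_option autoImplicit false

/-!
The groups `H_C = ⟨rooted alternating permutations, β(C)⟩` are branch groups.
-/

namespace Pool.Agent.U123.FA

open Equiv
open scoped commutatorElement

/-- the alternating group on the letters -/
abbrev A5 : Subgroup (Perm X) := alternatingGroup X

lemma A5_perfect : A5 ≤ ⁅A5, A5⁆ := by
  have h1 : commutator (alternatingGroup (Fin 5)) = ⊤ := by
    have hs : IsSimpleGroup (alternatingGroup (Fin 5)) := alternatingGroup.isSimpleGroup (by simp)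
    rcases hs.eq_bot_or_eq_top_of_normal (commutator (alternatingGroup (Fin 5))) inferInstance
      with h | h
    · exfalso
      have h2 := (commutator_eq_bot_iff_center_eq_top _).1 h
      have h3 := alternatingGroup.center_eq_bot (α := Fin 5) (by simp)
      rw [h3] at h2
      exact bot_ne_top h2
    · exact h
  intro a ha
  have h2 : (⟨a, ha⟩ : alternatingGroup (Fin 5)) ∈ commutator (alternatingGroup (Fin 5)) := by
    rw [h1]
    trivial
  have h3 : a ∈ (commutator (alternatingGroup (Fin 5))).map (alternatingGroup (Fin 5)).subtype :=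
    ⟨_, h2, rfl⟩
  rwa [Subgroup.map_subtype_commutator] at h3

lemma swap_swap_mem {a b c d : X} (h1 : a ≠ b) (h2 : c ≠ d) : swap a b * swap c d ∈ A5 := by
  rw [Perm.mem_alternatingGroup, map_mul, Perm.sign_swap h1, Perm.sign_swap h2]
  rfl

lemma A5_trans (x y : X) : ∃ a ∈ A5, a x = y := by
  by_cases hxy : x = y
  · exact ⟨1, one_mem _, hxy⟩
  · obtain ⟨z, hzx, hzy⟩ : ∃ z : X, z ≠ x ∧ z ≠ y := by
      revert x y
      decide
    refine ⟨swap x y * swap y z, swap_swap_mem hxy hzy.symm, ?_⟩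
    rw [Perm.mul_apply, swap_apply_of_ne_of_ne hxy hzx.symm, swap_apply_left]

/-- the branch groups of this file -/
structure Branch (K : Subgroup P) : Prop where
  rt_mem : ∀ a ∈ A5, rt a ∈ K
  δ_mem : ∀ x, ∀ h ∈ K, δ x h ∈ K
  dec : ∀ h ∈ K, ∃ (f : X → P) (a : Perm X), (∀ x, f x ∈ K) ∧ a ∈ A5 ∧ h = J f * rt a
  perf : K ≤ ⁅K, K⁆

/-- admissible groups of sequences -/
structure Good (C : Subgroup (ℕ → Perm X)) : Prop where
  val : ∀ c ∈ C, ∀ n, c n ∈ A5
  sh : ∀ c ∈ C, shift c ∈ C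
  sur : ∀ c ∈ C, ∃ d ∈ C, shift d = c
  zero : ∀ a ∈ A5, ∃ c ∈ C, c 0 = a
  perf : C ≤ ⁅C, C⁆

/-- the group generated by the rooted even permutations and the `β c`, `c ∈ C` -/
def HC (C : Subgroup (ℕ → Perm X)) : Subgroup P := A5.map rt ⊔ C.map β

lemma rt_mem_HC (C : Subgroup (ℕ → Perm X)) {a : Perm X} (ha : a ∈ A5) : rt a ∈ HC C :=
  (le_sup_left : A5.map rt ≤ HC C) ⟨a, ha, rfl⟩

lemma β_mem_HC {C : Subgroup (ℕ → Perm X)} {c : ℕ → Perm X} (hc : c ∈ C) : β c ∈ HC C :=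
  (le_sup_right : C.map β ≤ HC C) ⟨c, hc, rfl⟩

lemma HC_mono {C D : Subgroup (ℕ → Perm X)} (h : C ≤ D) : HC C ≤ HC D :=
  sup_le_sup le_rfl (Subgroup.map_mono h)

lemma comm_one {c d : ℕ → Perm X} :
    ⁅β c, rt (swap 0 2 * swap 2 3) * β d * (rt (swap 0 2 * swap 2 3))⁻¹⁆ =
      δ 1 (rt ⁅c 0, d 0⁆) := by
  rw [β_eq, β_eq, rt_J_inv, ← map_commutatorElement, δ_apply]
  congr 1
  funext y
  have h0 : (swap 0 2 * swap 2 3 : Perm X)⁻¹ 0 = 3 := by decide
  have h1 : (swap 0 2 * swap 2 3 : Perm X)⁻¹ 1 = 1 := by decide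
  show ⁅bsec c y, bsec d ((swap 0 2 * swap 2 3 : Perm X)⁻¹ y)⁆ = _
  by_cases hy0 : y = 0
  · subst hy0
    rw [h0, Pi.mulSingle_eq_of_ne (by decide)]
    simp [bsec]
  · by_cases hy1 : y = 1
    · subst hy1
      rw [h1, Pi.mulSingle_eq_same]
      simp [bsec, map_commutatorElement]
    · rw [Pi.mulSingle_eq_of_ne hy1]
      simp [bsec, hy0, hy1]

lemma comm_zero {c d : ℕ → Perm X} :
    ⁅β c, rt (swap 1 2 * swap 2 3) * β d * (rt (swap 1 2 * swap 2 3))⁻¹⁆ =
      δ 0 (β ⁅shift c, shift d⁆) := by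
  rw [β_eq, β_eq, rt_J_inv, ← map_commutatorElement, δ_apply]
  congr 1
  funext y
  have h0 : (swap 1 2 * swap 2 3 : Perm X)⁻¹ 0 = 0 := by decide
  have h1 : (swap 1 2 * swap 2 3 : Perm X)⁻¹ 1 = 3 := by decide
  show ⁅bsec c y, bsec d ((swap 1 2 * swap 2 3 : Perm X)⁻¹ y)⁆ = _
  by_cases hy0 : y = 0
  · subst hy0
    rw [h0, Pi.mulSingle_eq_same]
    simp [bsec, map_commutatorElement]
  · by_cases hy1 : y = 1
    · subst hy1
      rw [h1, Pi.mulSingle_eq_of_ne (by decide)]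
      simp [bsec]
    · rw [Pi.mulSingle_eq_of_ne hy0]
      simp [bsec, hy0, hy1]

lemma δ_conj {C : Subgroup (ℕ → Perm X)} {x : X} {h : P} (hh : δ x h ∈ HC C) (y : X) :
    δ y h ∈ HC C := by
  obtain ⟨a, ha, hax⟩ := A5_trans x y
  rw [← hax, ← rt_δ]
  exact (HC C).mul_mem ((HC C).mul_mem (rt_mem_HC C ha) hh) ((HC C).inv_mem (rt_mem_HC C ha))

lemma comm_mem_HC {K : Subgroup P} {g h : P} (hg : g ∈ K) (hh : h ∈ K) : ⁅g, h⁆ ∈ K :=
  K.mul_mem (K.mul_mem (K.mul_mem hg hh) (K.inv_mem hg)) (K.inv_mem hh)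

theorem Good.branch {C : Subgroup (ℕ → Perm X)} (hC : Good C) : Branch (HC C) := by
  have e1 : ∀ x, ∀ a ∈ A5, δ x (rt a) ∈ HC C := by
    intro x
    have h1 : ⁅A5, A5⁆ ≤ (HC C).comap ((δ x).comp rt) := by
      rw [Subgroup.commutator_le]
      intro a ha b hb
      obtain ⟨c, hc, hca⟩ := hC.zero a ha
      obtain ⟨d, hd, hdb⟩ := hC.zero b hb
      refine δ_conj (x := 1) ?_ x
      rw [← hca, ← hdb, ← comm_one]
      have hr := rt_mem_HC C (swap_swap_mem (a := 0) (b := 2) (c := 2) (d := 3)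
        (by decide) (by decide))
      exact comm_mem_HC (β_mem_HC hc) ((HC C).mul_mem ((HC C).mul_mem hr (β_mem_HC hd))
        ((HC C).inv_mem hr))
    intro a ha
    exact h1 (A5_perfect ha)
  have e2 : ∀ x, ∀ c ∈ C, δ x (β c) ∈ HC C := by
    intro x
    have h1 : ⁅C, C⁆ ≤ (HC C).comap ((δ x).comp β) := by
      rw [Subgroup.commutator_le]
      intro c hc d hd
      obtain ⟨c', hc', hcc⟩ := hC.sur c hc
      obtain ⟨d', hd', hdd⟩ := hC.sur d hd
      refine δ_conj (x := 0) ?_ x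
      rw [← hcc, ← hdd, ← comm_zero]
      have hr := rt_mem_HC C (swap_swap_mem (a := 1) (b := 2) (c := 2) (d := 3)
        (by decide) (by decide))
      exact comm_mem_HC (β_mem_HC hc') ((HC C).mul_mem ((HC C).mul_mem hr (β_mem_HC hd'))
        ((HC C).inv_mem hr))
    intro c hc
    exact h1 (hC.perf hc)
  have e3 : ∀ x, ∀ h ∈ HC C, δ x h ∈ HC C := by
    intro x
    have h1 : HC C ≤ (HC C).comap (δ x) := by
      apply sup_le
      · rintro _ ⟨a, ha, rfl⟩
        exact e1 x a ha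
      · rintro _ ⟨c, hc, rfl⟩
        exact e2 x c hc
    exact fun h hh => h1 hh
  refine ⟨fun a ha => rt_mem_HC C ha, e3, ?_, ?_⟩
  · -- the decomposition
    let D : Subgroup P :=
      { carrier := {h | ∃ (f : X → P) (a : Perm X), (∀ x, f x ∈ HC C) ∧ a ∈ A5 ∧ h = J f * rt a}
        one_mem' := ⟨1, 1, fun _ => one_mem _, one_mem _, by simp⟩
        mul_mem' := by
          rintro _ _ ⟨f, a, hf, ha, rfl⟩ ⟨g, b, hg, hb, rfl⟩
          refine ⟨f * fun x => g (a⁻¹ x), a * b, fun x => mul_mem (hf x) (hg _), mul_mem ha hb, ?_⟩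
          rw [map_mul, map_mul, mul_assoc, mul_assoc, ← mul_assoc (rt a) (J g), rt_J, mul_assoc]
        inv_mem' := by
          rintro _ ⟨f, a, hf, ha, rfl⟩
          refine ⟨fun x => (f (a x))⁻¹, a⁻¹, fun x => inv_mem (hf _), inv_mem ha, ?_⟩
          rw [mul_inv_rev, ← map_inv, ← map_inv, rt_J]
          simp only [inv_inv]
          rfl }
    have h1 : HC C ≤ D := by
      apply sup_le
      · rintro _ ⟨a, ha, rfl⟩
        exact ⟨1, a, fun _ => one_mem _, ha, by simp⟩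
      · rintro _ ⟨c, hc, rfl⟩
        refine ⟨bsec c, 1, fun x => ?_, one_mem _, ?_⟩
        · unfold bsec
          split_ifs
          · exact β_mem_HC (hC.sh c hc)
          · exact rt_mem_HC C (hC.val c hc 0)
          · exact one_mem _
        · rw [map_one, mul_one, β_eq]
    exact fun h hh => h1 hh
  · apply sup_le
    · calc A5.map rt ≤ (⁅A5, A5⁆ : Subgroup (Perm X)).map rt := Subgroup.map_mono A5_perfect
        _ = ⁅A5.map rt, A5.map rt⁆ := Subgroup.map_commutator _ _ _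
        _ ≤ _ := Subgroup.commutator_mono le_sup_left le_sup_left
    · calc C.map β ≤ (⁅C, C⁆ : Subgroup (ℕ → Perm X)).map β := Subgroup.map_mono hC.perf
        _ = ⁅C.map β, C.map β⁆ := Subgroup.map_commutator _ _ _
        _ ≤ _ := Subgroup.commutator_mono le_sup_right le_sup_right

end Pool.Agent.U123.FA
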