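import Pool.Agent.U123.FA.Seq
import Pool.Agent.U123.FA.Crit
import Pool.Agent.U123.FA.Chain

set_option autoImplicit false

/-!
The pair `G = H_{const} ≤ H = H_{periodic}`: same profinite completion, `G` has property (FA), `H`
is a strictly increasing union of subgroups.
-/

namespace Pool.Agent.U123.FA

open Equiv SimpleGraph

/-- the action on the words of length `n` -/
def lvl {K : Subgroup P} (hK : Branch K) (n : ℕ) : K →* Perm {w : List X // w.length = n} where
  toFun h := (h : P).subtypePerm (fun w => by rw [hK.length w h.2])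
  map_one' := by
    ext1 w
    rfl
  map_mul' g h := by
    ext1 w
    rfl

lemma mem_ker_lvl {K : Subgroup P} (hK : Branch K) (n : ℕ) (h : K) :
    h ∈ (lvl hK n).ker ↔ ∀ w : List X, w.length = n → (h : P) w = w := by
  rw [MonoidHom.mem_ker]
  constructor
  · intro h1 w hw
    have h2 := congrArg (fun e : Perm {w : List X // w.length = n} => (e ⟨w, hw⟩ : List X)) h1
    exact h2
  · intro h1
    ext1 w
    exact Subtype.ext (h1 w w.2)

lemma ker_lvl_index {K : Subgroup P} (hK : Branch K) (n : ℕ) : (lvl hK n).ker.index ≠ 0 := by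
  have : Finite {w : List X // w.length = n} := inferInstanceAs (Finite (List.Vector X n))
  rw [Subgroup.index_ker]
  exact Nat.card_pos.ne'

lemma Branch.rf {K : Subgroup P} (hK : Branch K) (g : K) (hg : g ≠ 1) :
    ∃ N : Subgroup K, N.Normal ∧ N.index ≠ 0 ∧ g ∉ N := by
  obtain ⟨v, hv⟩ : ∃ v, (g : P) v ≠ v := by
    by_contra hcon
    push Not at hcon
    exact hg (Subtype.ext (Equiv.ext hcon))
  refine ⟨(lvl hK v.length).ker, inferInstance, ker_lvl_index hK _, fun h => ?_⟩
  exact hv ((mem_ker_lvl hK _ g).1 h v rfl)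

/-- the normal subgroup theorem for subgroups of finite index -/
lemma Branch.finite_index {K : Subgroup P} (hK : Branch K) (N : Subgroup K) (hN : N.Normal)
    (hNi : N.index ≠ 0) : ∃ n : ℕ, (lvl hK n).ker ≤ N := by
  obtain ⟨g, hgN, hg1⟩ : ∃ g ∈ N, g ≠ 1 := by
    by_contra hcon
    push Not at hcon
    have h1 : N = ⊥ := by
      rw [eq_bot_iff]
      intro g hg
      exact hcon g hg
    rw [h1, Subgroup.index_bot] at hNi
    have := hK.infinite
    rw [Nat.card_eq_zero_of_infinite] at hNi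
    exact hNi rfl
  obtain ⟨n, hn⟩ := hK.nst (N.map K.subtype) (by
    rintro k hk _ ⟨m, hm, rfl⟩
    exact ⟨⟨k, hk⟩ * m * ⟨k, hk⟩⁻¹, hN.conj_mem m hm ⟨k, hk⟩, rfl⟩) g.2 ⟨g, hgN, rfl⟩
    (fun h => hg1 (Subtype.ext h))
  refine ⟨n, fun h hh => ?_⟩
  obtain ⟨h', hh', e⟩ := hn h h.2 ((mem_ker_lvl hK n h).1 hh)
  have : h' = h := Subtype.ext e
  rwa [← this]

/-- the smaller group -/
abbrev G₀ : Subgroup P := HC (Ck 0)

/-- the larger group -/
abbrev H₀ : Subgroup P := HC Cinf

lemma branch_G : Branch G₀ := (good_Ck 0).branch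
lemma branch_H : Branch H₀ := good_Cinf.branch
lemma G_le_H : G₀ ≤ H₀ := HC_mono (Ck_le 0)

lemma finite_Ck0 : Finite (Ck 0) := by
  have h1 : Function.Injective (fun c : Ck 0 => (c : ℕ → Perm X) 0) := by
    intro c d h
    apply Subtype.ext
    funext n
    induction n with
    | zero => exact h
    | succ n ih =>
      have h2 := c.2.2 n
      have h3 := d.2.2 n
      rw [pow_zero] at h2 h3
      rw [h2, h3, ih]
  exact Finite.of_injective _ h1

/-- the copies inside the group -/
def δG (x : X) : G₀ →* G₀ :=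
  ((δ x).comp G₀.subtype).codRestrict G₀ (fun h => branch_G.δ_mem x h h.2)

lemma fa_G (V : Type) [MulAction G₀ V] (T : SimpleGraph V) (hA : Act G₀ V T) :
    ∃ v : V, ∀ g : G₀, g • v = v := by
  let A : Subgroup G₀ := (A5.map rt).subgroupOf G₀
  let B : Subgroup G₀ := ((Ck 0).map β).subgroupOf G₀
  have hA' : ∀ {a : Perm X} (ha : a ∈ A5), (⟨rt a, rt_mem_HC _ ha⟩ : G₀) ∈ A := fun {a} ha => by
    rw [Subgroup.mem_subgroupOf]
    exact ⟨a, ha, rfl⟩
  have fA : Finite A := by
    have h1 : Finite (A5.map rt) := by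
      have : (A5.map rt : Set P).Finite := by
        rw [Subgroup.coe_map]
        exact (Set.toFinite _).image _
      exact this.to_subtype
    exact Finite.of_injective (fun a : A => (⟨(a : G₀), Subgroup.mem_subgroupOf.1 a.2⟩ : A5.map rt))
      (fun a b h => by
        have h' := congrArg Subtype.val h
        exact Subtype.ext (Subtype.ext h'))
  have fB : Finite B := by
    have := finite_Ck0
    have h1 : Finite ((Ck 0).map β) := by
      have : ((Ck 0).map β : Set P).Finite := by
        rw [Subgroup.coe_map]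
        exact (Set.toFinite _).image _
      exact this.to_subtype
    exact Finite.of_injective
      (fun a : B => (⟨(a : G₀), Subgroup.mem_subgroupOf.1 a.2⟩ : (Ck 0).map β))
      (fun a b h => by
        have h' := congrArg Subtype.val h
        exact Subtype.ext (Subtype.ext h'))
  have hAB : A ⊔ B = ⊤ := by
    have h1 : A5.map rt ≤ G₀ := le_sup_left
    have h2 : (Ck 0).map β ≤ G₀ := le_sup_right
    rw [← Subgroup.subgroupOf_sup h1 h2]
    exact Subgroup.subgroupOf_self _
  refine fa_crit A B hAB δG ?_ ?_ ?_ 0 1 (by decide) ?_ hA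
  · intro x y hxy g h
    exact Subtype.ext (δ_comm hxy (g : P) (h : P))
  · rintro ⟨a', ha'⟩ ha x
    rw [Subgroup.mem_subgroupOf] at ha
    obtain ⟨a, haA, rfl⟩ := ha
    exact ⟨a x, fun g => Subtype.ext (rt_δ a x g)⟩
  · intro x y
    obtain ⟨a, ha, hax⟩ := A5_trans x y
    refine ⟨⟨rt a, rt_mem_HC _ ha⟩, hA' ha, fun g => Subtype.ext ?_⟩
    have := rt_δ a x g
    rw [hax] at this
    exact this
  · rw [eq_top_iff]
    intro h _
    obtain ⟨f, a, hf, ha, e⟩ := branch_G.dec h h.2
    have h1 : h = ⟨J f, branch_G.J_mem f hf⟩ * ⟨rt a, rt_mem_HC _ ha⟩ := Subtype.ext e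
    rw [h1]
    refine mul_mem ?_ ((le_sup_left : A ≤ _) (hA' ha))
    -- products of the copies
    let S : Subgroup G₀ := A ⊔ ⨆ x, (δG x).range
    have h2 : f ∈ (S.map G₀.subtype).comap J := by
      apply Subgroup.pi_mem_of_mulSingle_mem
      intro x
      refine ⟨δG x ⟨f x, hf x⟩, ?_, rfl⟩
      exact (le_sup_right : _ ≤ S) ((le_iSup (fun x => (δG x).range) x) ⟨_, rfl⟩)
    obtain ⟨g, hg, e'⟩ := h2
    have h3 : g = ⟨J f, branch_G.J_mem f hf⟩ := Subtype.ext e'
    rw [← h3]
    exact hg

end Pool.Agent.U123.FA
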