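import Pool.Agent.U123.FA.Branch

set_option autoImplicit false

/-!
Periodic sequences; the groups they generate form a strictly increasing chain.
-/

namespace Pool.Agent.U123.FA

open Equiv
open scoped commutatorElement

/-- sequences of even permutations of period `2 ^ k` -/
def Ck (k : ℕ) : Subgroup (ℕ → Perm X) where
  carrier := {c | (∀ n, c n ∈ A5) ∧ ∀ n, c (n + 2 ^ k) = c n}
  one_mem' := ⟨fun _ => one_mem _, fun _ => rfl⟩
  mul_mem' := by
    rintro c d ⟨h1, h2⟩ ⟨h3, h4⟩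
    refine ⟨fun n => mul_mem (h1 n) (h3 n), fun n => ?_⟩
    rw [Pi.mul_apply, Pi.mul_apply, h2, h4]
  inv_mem' := by
    rintro c ⟨h1, h2⟩
    refine ⟨fun n => inv_mem (h1 n), fun n => ?_⟩
    rw [Pi.inv_apply, Pi.inv_apply, h2]

lemma mem_Ck {k : ℕ} {c : ℕ → Perm X} :
    c ∈ Ck k ↔ (∀ n, c n ∈ A5) ∧ ∀ n, c (n + 2 ^ k) = c n := Iff.rfl

lemma A5_commutator : commutator (A5 : Subgroup (Perm X)) = ⊤ := by
  rw [eq_top_iff]
  rintro ⟨a, ha⟩ -
  have h1 := A5_perfect ha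
  rw [← Subgroup.map_subtype_commutator] at h1
  obtain ⟨b, hb, hba⟩ := h1
  have : b = ⟨a, ha⟩ := Subtype.ext hba
  rwa [← this]

lemma perf_of_comp (C : Subgroup (ℕ → Perm X)) (hval : ∀ c ∈ C, ∀ n, c n ∈ A5)
    (hcomp : ∀ c (hc : c ∈ C), ∀ φ : A5 → A5, (fun n => (φ ⟨c n, hval c hc n⟩ : Perm X)) ∈ C) :
    C ≤ ⁅C, C⁆ := by
  intro c hc
  let Φ : (A5 → A5) →* (ℕ → Perm X) :=
    { toFun := fun φ n => (φ ⟨c n, hval c hc n⟩ : Perm X)
      map_one' := rfl
      map_mul' := fun _ _ => rfl }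
  have h1 : (⊤ : Subgroup (A5 → A5)) = ⁅(⊤ : Subgroup (A5 → A5)), (⊤ : Subgroup (A5 → A5))⁆ := by
    have h2 := Subgroup.commutator_pi_pi_of_finite (fun _ : A5 => (⊤ : Subgroup A5))
      (fun _ : A5 => (⊤ : Subgroup A5))
    rw [Subgroup.pi_top] at h2
    rw [h2]
    have h3 : (fun _ : A5 => ⁅(⊤ : Subgroup A5), (⊤ : Subgroup A5)⁆) =
        fun _ : A5 => (⊤ : Subgroup A5) := by
      funext _
      rw [← commutator_def, A5_commutator]
    rw [h3, Subgroup.pi_top]
  have h2 : (⊤ : Subgroup (A5 → A5)).map Φ ≤ C := by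
    rintro _ ⟨φ, -, rfl⟩
    exact hcomp c hc φ
  have h3 : c ∈ (⊤ : Subgroup (A5 → A5)).map Φ := ⟨id, trivial, rfl⟩
  rw [h1, Subgroup.map_commutator] at h3
  exact Subgroup.commutator_mono h2 h2 h3

lemma good_Ck (k : ℕ) : Good (Ck k) where
  val c hc := hc.1
  sh c hc := ⟨fun n => hc.1 (n + 1), fun n => by
    show c (n + 2 ^ k + 1) = c (n + 1)
    rw [← hc.2 (n + 1)]
    congr 1
    omega⟩
  sur c hc := by
    have h2 : 1 ≤ 2 ^ k := Nat.one_le_two_pow
    refine ⟨fun n => c (n + (2 ^ k - 1)), ⟨fun n => hc.1 _, fun n => ?_⟩, ?_⟩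
    · show c (n + 2 ^ k + (2 ^ k - 1)) = c (n + (2 ^ k - 1))
      rw [← hc.2 (n + (2 ^ k - 1))]
      congr 1
      omega
    · funext n
      show c (n + 1 + (2 ^ k - 1)) = c n
      rw [← hc.2 n]
      congr 1
      omega
  zero a ha := ⟨fun _ => a, ⟨fun _ => ha, fun _ => rfl⟩, rfl⟩
  perf := by
    refine perf_of_comp _ (fun c hc => hc.1) ?_
    intro c hc φ
    refine ⟨fun n => (φ _).2, fun n => ?_⟩
    show (φ ⟨c (n + 2 ^ k), _⟩ : Perm X) = φ ⟨c n, _⟩
    congr 3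
    exact hc.2 n

lemma Ck_mono {k l : ℕ} (h : k ≤ l) : Ck k ≤ Ck l := by
  refine monotone_nat_of_le_succ (f := Ck) (fun k => ?_) h
  intro c hc
  refine ⟨hc.1, fun n => ?_⟩
  have e : n + 2 ^ (k + 1) = n + 2 ^ k + 2 ^ k := by rw [pow_succ]; omega
  rw [e, hc.2, hc.2]

lemma Ck_directed : Directed (· ≤ ·) Ck := fun k l =>
  ⟨max k l, Ck_mono (le_max_left k l), Ck_mono (le_max_right k l)⟩

/-- all periodic sequences -/
def Cinf : Subgroup (ℕ → Perm X) := ⨆ k, Ck k

lemma mem_Cinf {c : ℕ → Perm X} : c ∈ Cinf ↔ ∃ k, c ∈ Ck k :=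
  Subgroup.mem_iSup_of_directed Ck_directed

lemma Ck_le (k : ℕ) : Ck k ≤ Cinf := le_iSup Ck k

lemma good_Cinf : Good Cinf where
  val c hc := by
    obtain ⟨k, hk⟩ := mem_Cinf.1 hc
    exact hk.1
  sh c hc := by
    obtain ⟨k, hk⟩ := mem_Cinf.1 hc
    exact Ck_le k ((good_Ck k).sh c hk)
  sur c hc := by
    obtain ⟨k, hk⟩ := mem_Cinf.1 hc
    obtain ⟨d, hd, hdc⟩ := (good_Ck k).sur c hk
    exact ⟨d, Ck_le k hd, hdc⟩
  zero a ha := by
    obtain ⟨d, hd, hdc⟩ := (good_Ck 0).zero a ha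
    exact ⟨d, Ck_le 0 hd, hdc⟩
  perf := by
    intro c hc
    obtain ⟨k, hk⟩ := mem_Cinf.1 hc
    exact Subgroup.commutator_mono (Ck_le k) (Ck_le k) ((good_Ck k).perf hk)

lemma HC_directed : Directed (· ≤ ·) (fun k => HC (Ck k)) := fun k l =>
  ⟨max k l, HC_mono (Ck_mono (le_max_left k l)), HC_mono (Ck_mono (le_max_right k l))⟩

lemma mem_HC_Cinf {h : P} (hh : h ∈ HC Cinf) : ∃ k, h ∈ HC (Ck k) := by
  rw [← Subgroup.mem_iSup_of_directed HC_directed]
  have h1 : HC Cinf ≤ ⨆ k, HC (Ck k) := by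
    apply sup_le
    · exact le_trans le_sup_left (le_iSup (fun k => HC (Ck k)) 0)
    · rw [Cinf, Subgroup.map_iSup]
      exact iSup_mono fun k => le_sup_right
  exact h1 hh

/-! sections -/

/-- the germs -/
def Germ (C : Subgroup (ℕ → Perm X)) (s : P) : Prop := (∃ c ∈ C, s = β c) ∨ ∃ a, s = rt a

lemma germ_sec {C : Subgroup (ℕ → Perm X)} (hC : Good C) {c : ℕ → Perm X} (hc : c ∈ C) (x : X) :
    Germ C (bsec c x) := by
  unfold bsec
  split_ifs
  · exact Or.inl ⟨_, hC.sh c hc, rfl⟩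
  · exact Or.inr ⟨_, rfl⟩
  · exact Or.inr ⟨1, (map_one rt).symm⟩

lemma germ_mul {C : Subgroup (ℕ → Perm X)} (hC : Good C) {s t : P} (hs : Germ C s)
    (ht : Germ C t) (x : X) : ∃ (y : X) (r : P), Germ C r ∧ ∀ u, s (t (x :: u)) = y :: r u := by
  rcases hs with ⟨c, hc, rfl⟩ | ⟨a, rfl⟩ <;> rcases ht with ⟨d, hd, rfl⟩ | ⟨b, rfl⟩
  · refine ⟨x, bsec (c * d) x, germ_sec hC (mul_mem hc hd) x, fun u => ?_⟩
    rw [← Perm.mul_apply, ← map_mul, β_eq, J_cons]
  · refine ⟨b x, bsec c (b x), germ_sec hC hc _, fun u => ?_⟩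
    rw [rt_cons, β_eq, J_cons]
  · refine ⟨a x, bsec d x, germ_sec hC hd _, fun u => ?_⟩
    rw [β_eq, J_cons, rt_cons]
  · refine ⟨a (b x), 1, Or.inr ⟨1, (map_one rt).symm⟩, fun u => ?_⟩
    rw [rt_cons, rt_cons]
    rfl

/-- the permutations whose sections at deep levels are germs -/
def RC (C : Subgroup (ℕ → Perm X)) (hC : Good C) : Subgroup P where
  carrier := {h | (∀ w, (h w).length = w.length) ∧ ∃ N, ∀ v : List X, N ≤ v.length →
    ∃ s, Germ C s ∧ ∀ u, h (v ++ u) = h v ++ s u}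
  one_mem' := ⟨fun _ => rfl, 0, fun v _ => ⟨1, Or.inr ⟨1, (map_one rt).symm⟩, fun _ => rfl⟩⟩
  mul_mem' := by
    rintro g h ⟨hg1, N, hN⟩ ⟨hh1, N', hN'⟩
    refine ⟨fun w => by rw [Perm.mul_apply, hg1, hh1], max N N' + 1, fun v hv => ?_⟩
    obtain ⟨v', x, rfl⟩ : ∃ v' x, v = v' ++ [x] := by
      have hne : v ≠ [] := by
        rintro rfl
        simp at hv
      exact ⟨v.dropLast, v.getLast hne, (List.dropLast_append_getLast hne).symm⟩
    rw [List.length_append, List.length_singleton] at hv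
    obtain ⟨t, ht, htu⟩ := hN' v' (by omega)
    obtain ⟨s, hs, hsu⟩ := hN (h v') (by rw [hh1]; omega)
    obtain ⟨y, r, hr, hru⟩ := germ_mul hC hs ht x
    refine ⟨r, hr, fun u => ?_⟩
    rw [Perm.mul_apply, Perm.mul_apply, List.append_assoc, List.singleton_append, htu, hsu, htu,
      hsu, hru, hru, List.append_assoc]
    have hr0 : r [] = [] := by
      rcases hr with ⟨c, -, rfl⟩ | ⟨a, rfl⟩ <;> rfl
    rw [hr0]
    rfl
  inv_mem' := by
    rintro g ⟨hg1, N, hN⟩
    have hginv : ∀ w, (g⁻¹ w).length = w.length := by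
      intro w
      have := hg1 (g⁻¹ w)
      rw [← this]
      simp
    refine ⟨hginv, N, fun v hv => ?_⟩
    obtain ⟨s, hs, hsu⟩ := hN (g⁻¹ v) (by rw [hginv]; exact hv)
    refine ⟨s⁻¹, ?_, fun u => ?_⟩
    · rcases hs with ⟨c, hc, rfl⟩ | ⟨a, rfl⟩
      · exact Or.inl ⟨c⁻¹, inv_mem hc, (map_inv β c).symm⟩
      · exact Or.inr ⟨a⁻¹, (map_inv rt a).symm⟩
    · rw [Perm.inv_eq_iff_eq, hsu]
      simp

lemma HC_le_RC {C : Subgroup (ℕ → Perm X)} (hC : Good C) : HC C ≤ RC C hC := by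
  apply sup_le
  · rintro _ ⟨a, ha, rfl⟩
    refine ⟨fun w => hC.branch.length w (rt_mem_HC C ha), 1, fun v hv => ?_⟩
    cases v with
    | nil => simp at hv
    | cons x v => exact ⟨1, Or.inr ⟨1, (map_one rt).symm⟩, fun u => rfl⟩
  · rintro _ ⟨c, hc, rfl⟩
    refine ⟨fun w => hC.branch.length w (β_mem_HC hc), 0, fun v hv => ?_⟩
    clear hv
    induction v generalizing c with
    | nil => exact ⟨β c, Or.inl ⟨c, hc, rfl⟩, fun u => rfl⟩
    | cons x v ih =>
      by_cases h0 : x = 0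
      · subst h0
        obtain ⟨s, hs, hsu⟩ := ih (shift c) (hC.sh c hc)
        refine ⟨s, hs, fun u => ?_⟩
        rw [List.cons_append, β_eq, J_cons, J_cons]
        show (0 : X) :: β (shift c) (v ++ u) = 0 :: β (shift c) v ++ s u
        rw [hsu]
        rfl
      · by_cases h1 : x = 1
        · subst h1
          cases v with
          | nil =>
            refine ⟨rt (c 0), Or.inr ⟨_, rfl⟩, fun u => ?_⟩
            rw [List.cons_append, List.nil_append, β_eq, J_cons, J_cons]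
            rfl
          | cons y v =>
            refine ⟨1, Or.inr ⟨1, (map_one rt).symm⟩, fun u => ?_⟩
            rw [List.cons_append, β_eq, J_cons, J_cons]
            rfl
        · refine ⟨1, Or.inr ⟨1, (map_one rt).symm⟩, fun u => ?_⟩
          rw [List.cons_append, β_eq, J_cons, J_cons]
          have : bsec c x = 1 := by
            unfold bsec
            rw [if_neg h0, if_neg h1]
          rw [this]
          rfl

lemma β_replicate (N : ℕ) : ∀ (c : ℕ → Perm X) (u : List X),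
    β c (List.replicate N 0 ++ u) = List.replicate N 0 ++ β (fun n => c (n + N)) u := by
  induction N with
  | zero => intro c u; rfl
  | succ N ih =>
    intro c u
    rw [List.replicate_succ, List.cons_append, β_eq, J_cons]
    show (0 : X) :: β (shift c) (List.replicate N 0 ++ u) = _
    rw [ih]
    have : (fun n => shift c (n + N)) = fun n => c (n + (N + 1)) := by
      funext n
      show c (n + N + 1) = _
      rfl
    rw [this]
    rfl

/-- only the sequences of the right period occur -/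
lemma mem_Ck_of_β {k : ℕ} {d : ℕ → Perm X} (hd : d ∈ Cinf) (hβ : β d ∈ HC (Ck k)) : d ∈ Ck k := by
  obtain ⟨-, N, hN⟩ := HC_le_RC (good_Ck k) hβ
  obtain ⟨s, hs, hsu⟩ := hN (List.replicate N 0) (by simp)
  have h0 : β d (List.replicate N 0) = List.replicate N 0 := by
    have := β_replicate N d []
    rw [List.append_nil] at this
    rw [this]
    show List.replicate N 0 ++ [] = _
    rw [List.append_nil]
  have h1 : s = β (fun n => d (n + N)) := by
    ext1 u
    have h2 := hsu u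
    rw [β_replicate, h0] at h2
    exact (List.append_cancel_left h2).symm
  have h2 : (fun n => d (n + N)) ∈ Ck k := by
    rcases hs with ⟨c, hc, hsc⟩ | ⟨a, hsa⟩
    · rw [h1] at hsc
      rw [β_injective hsc]
      exact hc
    · have h3 : a = 1 := by
        ext1 x
        have h4 : β (fun n => d (n + N)) [x] = rt a [x] := by rw [← h1, hsa]
        rw [β_eq, J_cons, rt_cons] at h4
        exact (List.cons.inj h4).1.symm
      rw [h3, map_one, h1] at hsa
      have h4 : (fun n => d (n + N)) = 1 := β_injective (hsa.trans (map_one β).symm)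
      rw [h4]
      exact one_mem _
  obtain ⟨l, hl⟩ := mem_Cinf.1 hd
  have h3 : ∀ j n, d (n + j * 2 ^ l) = d n := by
    intro j
    induction j with
    | zero => intro n; simp
    | succ j ih =>
      intro n
      have e : n + (j + 1) * 2 ^ l = n + j * 2 ^ l + 2 ^ l := by ring
      rw [e, hl.2, ih]
  refine ⟨hl.1, fun n => ?_⟩
  have h4 : N ≤ N * 2 ^ l := Nat.le_mul_of_pos_right _ (by positivity)
  have h5 := h2.2 (n + (N * 2 ^ l - N))
  rw [← h3 N (n + 2 ^ k), ← h3 N n]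
  have e1 : n + (N * 2 ^ l - N) + 2 ^ k + N = n + 2 ^ k + N * 2 ^ l := by omega
  have e2 : n + (N * 2 ^ l - N) + N = n + N * 2 ^ l := by omega
  simp only [e1, e2] at h5
  exact h5

lemma exists_not_mem (k : ℕ) : ∃ h ∈ HC Cinf, h ∉ HC (Ck k) := by
  obtain ⟨a, ha, ha0⟩ := A5_trans 0 1
  let d : ℕ → Perm X := fun n => if n % 2 ^ (k + 1) = 0 then a else 1
  have hd : d ∈ Ck (k + 1) := by
    refine ⟨fun n => ?_, fun n => ?_⟩
    · show (if n % 2 ^ (k + 1) = 0 then a else 1) ∈ A5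
      split_ifs
      · exact ha
      · exact one_mem _
    · show (if (n + 2 ^ (k + 1)) % 2 ^ (k + 1) = 0 then a else 1) = _
      rw [Nat.add_mod_right]
  refine ⟨β d, β_mem_HC (Ck_le _ hd), fun h => ?_⟩
  have h1 := (mem_Ck_of_β (Ck_le _ hd) h).2 0
  have h2 : d 0 = a := by
    show (if 0 % 2 ^ (k + 1) = 0 then a else 1) = a
    rw [Nat.zero_mod, if_pos rfl]
  have h3 : d (0 + 2 ^ k) = 1 := by
    show (if (0 + 2 ^ k) % 2 ^ (k + 1) = 0 then a else 1) = 1
    rw [if_neg]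
    have h4 : 2 ^ k < 2 ^ (k + 1) := Nat.pow_lt_pow_right (by norm_num) (by omega)
    have h5 : 0 < 2 ^ k := by positivity
    rw [zero_add, Nat.mod_eq_of_lt h4]
    omega
  rw [h2, h3] at h1
  rw [← h1] at ha0
  exact absurd ha0 (by decide)

end Pool.Agent.U123.FA
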