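import Mathlib

set_option autoImplicit false

/-!
Metric lemmas on trees: separation, convex sets, bridges, fixed points of finite groups.
-/

namespace Pool.Agent.U123.FA

open SimpleGraph

variable {V : Type} {T : SimpleGraph V}

/-- a point of a geodesic separates its ends -/
theorem sep (hT : T.IsTree) {a m b : V} (h : T.dist a m + T.dist m b = T.dist a b) (o : V) :
    T.dist a m + T.dist m o = T.dist a o ∨ T.dist b m + T.dist m o = T.dist b o := by
  classical
  obtain ⟨p, hp⟩ := hT.connected.exists_walk_length_eq_dist a o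
  obtain ⟨q, hq⟩ := hT.connected.exists_walk_length_eq_dist b o
  by_cases h1 : m ∈ p.support
  · left
    have h2 : (p.takeUntil m h1).length + (p.dropUntil m h1).length = p.length := by
      rw [← Walk.length_append, Walk.take_spec]
    have h3 := dist_le (p.takeUntil m h1)
    have h4 := dist_le (p.dropUntil m h1)
    have h5 := hT.connected.dist_triangle (u := a) (v := m) (w := o)
    omega
  by_cases h1' : m ∈ q.support
  · right
    have h2 : (q.takeUntil m h1').length + (q.dropUntil m h1').length = q.length := by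
      rw [← Walk.length_append, Walk.take_spec]
    have h3 := dist_le (q.takeUntil m h1')
    have h4 := dist_le (q.dropUntil m h1')
    have h5 := hT.connected.dist_triangle (u := b) (v := m) (w := o)
    omega
  exfalso
  obtain ⟨r, hr⟩ := hT.connected.exists_walk_length_eq_dist a m
  obtain ⟨s, hs⟩ := hT.connected.exists_walk_length_eq_dist m b
  have h6 : (r.append s).IsPath := by
    apply Walk.isPath_of_length_eq_dist
    rw [Walk.length_append]
    omega
  have h7 : m ∈ (r.append s).support := by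
    rw [Walk.mem_support_append_iff]
    left
    exact r.end_mem_support
  have h8 : (p.append q.reverse).bypass = r.append s := by
    have := hT.isAcyclic.path_unique ⟨(p.append q.reverse).bypass, Walk.bypass_isPath _⟩
      ⟨r.append s, h6⟩
    exact congrArg Subtype.val this
  rw [← h8] at h7
  have h9 := Walk.support_bypass_subset _ h7
  rw [Walk.mem_support_append_iff] at h9
  rcases h9 with h9 | h9
  · exact h1 h9
  · rw [Walk.support_reverse, List.mem_reverse] at h9
    exact h1' h9

/-- intermediate points -/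
theorem exists_mid (hT : T.IsTree) (a b : V) (i : ℕ) (hi : i ≤ T.dist a b) :
    ∃ m, T.dist a m = i ∧ T.dist m b = T.dist a b - i := by
  obtain ⟨p, hp⟩ := hT.connected.exists_walk_length_eq_dist a b
  refine ⟨p.getVert i, ?_⟩
  have h1 := dist_le (p.take i)
  have h2 := dist_le (p.drop i)
  rw [Walk.take_length] at h1
  rw [Walk.drop_length] at h2
  have h3 := hT.connected.dist_triangle (u := a) (v := p.getVert i) (w := b)
  have h4 : min i p.length = i := by omega
  omega

/-- convex sets of vertices (the vertex sets of subtrees) -/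
def Conv (T : SimpleGraph V) (F : Set V) : Prop :=
  ∀ a ∈ F, ∀ b ∈ F, ∀ m, T.dist a m + T.dist m b = T.dist a b → m ∈ F

lemma conv_univ : Conv T Set.univ := fun _ _ _ _ _ _ => trivial

lemma conv_inter {F F' : Set V} (h : Conv T F) (h' : Conv T F') : Conv T (F ∩ F') :=
  fun a ha b hb m hm => ⟨h a ha.1 b hb.1 m hm, h' a ha.2 b hb.2 m hm⟩

/-- projections onto convex sets -/
theorem proj (hT : T.IsTree) {F : Set V} (hF : Conv T F) {v p : V} (hp : p ∈ F)
    (hmin : ∀ q ∈ F, T.dist v p ≤ T.dist v q) {p' : V} (hp' : p' ∈ F) :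
    T.dist v p + T.dist p p' = T.dist v p' := by
  rcases Nat.eq_zero_or_pos (T.dist v p) with h0 | h0
  · have : v = p := hT.connected.dist_eq_zero_iff.1 h0
    subst this
    rw [h0, zero_add]
  obtain ⟨a, ha1, ha2⟩ := exists_mid hT v p (T.dist v p - 1) (by omega)
  have ha3 : T.dist a p = 1 := by omega
  have haF : a ∉ F := fun h => by
    have := hmin a h
    omega
  have hadj : T.Adj a p := dist_eq_one_iff_adj.1 ha3
  have h1 : T.dist p' a = T.dist p' p + 1 := by
    rcases hT.dist_eq_dist_add_one_of_adj p' hadj with h | h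
    · exact h
    · exfalso
      apply haF
      refine hF p' hp' p hp a ?_
      rw [ha3, h]
  rcases sep hT (a := v) (m := a) (b := p) (by omega) p' with h | h
  · rw [dist_comm (u := a) (v := p'), h1, dist_comm (u := p') (v := p)] at h
    omega
  · exfalso
    apply haF
    exact hF p hp p' hp' a h

/-- the bridge between two disjoint convex sets is unique -/
theorem bridge (hT : T.IsTree) {F₁ F₂ : Set V} (h₁ : Conv T F₁) (h₂ : Conv T F₂)
    (hne₁ : F₁.Nonempty) (hne₂ : F₂.Nonempty) (hdis : Disjoint F₁ F₂) :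
    ∃ p ∈ F₁, ∃ q ∈ F₂, ∀ p' ∈ F₁, ∀ q' ∈ F₂, T.dist p' q' = T.dist p q → p' = p := by
  classical
  let S : Set ℕ := {n | ∃ p ∈ F₁, ∃ q ∈ F₂, T.dist p q = n}
  have hS : S.Nonempty := by
    obtain ⟨p, hp⟩ := hne₁
    obtain ⟨q, hq⟩ := hne₂
    exact ⟨_, p, hp, q, hq, rfl⟩
  obtain ⟨p, hp, q, hq, hpq⟩ := Nat.sInf_mem hS
  have hmin : ∀ a ∈ F₁, ∀ b ∈ F₂, T.dist p q ≤ T.dist a b := by
    intro a ha b hb
    rw [hpq]
    exact Nat.sInf_le ⟨a, ha, b, hb, rfl⟩
  refine ⟨p, hp, q, hq, fun p' hp' q' hq' h => ?_⟩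
  have hd : 1 ≤ T.dist p q := by
    by_contra h0
    have h0' : T.dist p q = 0 := by omega
    have : p = q := hT.connected.dist_eq_zero_iff.1 h0'
    subst this
    exact Set.disjoint_left.1 hdis hp hq
  -- four distances
  have e1 : T.dist q p + T.dist p p' = T.dist q p' := proj hT h₁ hp (fun a ha => by
    rw [dist_comm (u := q), dist_comm (u := q)]
    exact hmin a ha q hq) hp'
  have e2 : T.dist p q + T.dist q q' = T.dist p q' := proj hT h₂ hq (fun b hb => hmin p hp b hb) hq'
  have e3 : T.dist p' q' + T.dist q' q = T.dist p' q := proj hT h₂ hq' (fun b hb => by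
    rw [h]
    exact hmin p' hp' b hb) hq
  have c1 := dist_comm (G := T) (u := q) (v := p)
  have c2 := dist_comm (G := T) (u := q) (v := p')
  have c3 := dist_comm (G := T) (u := q) (v := q')
  have c4 := dist_comm (G := T) (u := p) (v := p')
  rcases sep hT (a := q) (m := p) (b := p') e1 q' with h3 | h3
  · omega
  · have h4 : T.dist p p' = 0 := by omega
    exact (hT.connected.dist_eq_zero_iff.1 h4).symm

/-- an action on a tree by automorphisms without inversions -/
structure Act (G : Type) [Group G] (V : Type) [MulAction G V] (T : SimpleGraph V) : Prop where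
  tree : T.IsTree
  adj : ∀ (g : G) (x y : V), T.Adj x y → T.Adj (g • x) (g • y)
  noinv : ∀ (g : G) (x y : V), T.Adj x y → ¬ (g • x = y ∧ g • y = x)

variable {G : Type} [Group G] [MulAction G V]

lemma Act.dist_le (hA : Act G V T) (g : G) (x y : V) : T.dist (g • x) (g • y) ≤ T.dist x y := by
  obtain ⟨p, hp⟩ := hA.tree.connected.exists_walk_length_eq_dist x y
  let f : T →g T := ⟨fun v => g • v, fun {a b} h => hA.adj g a b h⟩
  have := SimpleGraph.dist_le (p.map f)
  rw [Walk.length_map, hp] at this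
  exact this

lemma Act.dist_eq (hA : Act G V T) (g : G) (x y : V) : T.dist (g • x) (g • y) = T.dist x y := by
  apply le_antisymm (hA.dist_le g x y)
  have := hA.dist_le g⁻¹ (g • x) (g • y)
  rwa [inv_smul_smul, inv_smul_smul] at this

/-- the vertices fixed by a set of elements -/
def Fix (V : Type) [MulAction G V] (K : Set G) : Set V := {v | ∀ k ∈ K, k • v = v}

lemma Act.conv_fix (hA : Act G V T) (K : Set G) : Conv T (Fix V K) := by
  intro a ha b hb m hm k hk
  have h1 : T.dist a (k • m) = T.dist a m := by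
    have := hA.dist_eq k a m
    rwa [ha k hk] at this
  have h2 : T.dist b (k • m) = T.dist b m := by
    have := hA.dist_eq k b m
    rwa [hb k hk] at this
  have h3 : T.dist m (k • m) = 0 := by
    rcases sep hA.tree hm (k • m) with h | h <;> omega
  exact (hA.tree.connected.dist_eq_zero_iff.1 h3).symm

/-- elements that preserve two disjoint convex sets fix the end of the bridge -/
lemma Act.fix_bridge (hA : Act G V T) {F₁ F₂ : Set V} (h₁ : Conv T F₁) (h₂ : Conv T F₂)
    (hne₁ : F₁.Nonempty) (hne₂ : F₂.Nonempty) (hdis : Disjoint F₁ F₂) (K : Set G)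
    (hK₁ : ∀ k ∈ K, ∀ v ∈ F₁, k • v ∈ F₁) (hK₂ : ∀ k ∈ K, ∀ v ∈ F₂, k • v ∈ F₂) :
    ∃ p ∈ F₁, p ∈ Fix V K := by
  obtain ⟨p, hp, q, hq, h⟩ := bridge hA.tree h₁ h₂ hne₁ hne₂ hdis
  refine ⟨p, hp, fun k hk => ?_⟩
  exact h _ (hK₁ k hk p hp) _ (hK₂ k hk q hq) (hA.dist_eq k p q)

/-- a finite group that preserves a subtree fixes a vertex in it -/
theorem Act.finite_fix (hA : Act G V T) (Γ : Subgroup G) [Finite Γ] {F : Set V} (hF : Conv T F)
    (hne : F.Nonempty) (hinv : ∀ g ∈ Γ, ∀ v ∈ F, g • v ∈ F) :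
    ∃ v ∈ F, ∀ g ∈ Γ, g • v = v := by
  classical
  haveI := Fintype.ofFinite Γ
  obtain ⟨o, ho⟩ := hne
  let r : V → ℕ := fun v => Finset.univ.sup (fun γ : Γ => T.dist v ((γ : G) • o))
  have hr1 : ∀ v (γ : Γ), T.dist v ((γ : G) • o) ≤ r v := fun v γ =>
    Finset.le_sup (f := fun γ : Γ => T.dist v ((γ : G) • o)) (Finset.mem_univ γ)
  have hr2 : ∀ v, ∃ γ : Γ, r v = T.dist v ((γ : G) • o) := by
    intro v
    obtain ⟨γ, -, h⟩ := Finset.exists_mem_eq_sup (Finset.univ : Finset Γ) ⟨1, Finset.mem_univ _⟩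
      (fun γ : Γ => T.dist v ((γ : G) • o))
    exact ⟨γ, h⟩
  have hr3 : ∀ (g : G), g ∈ Γ → ∀ v, r (g • v) ≤ r v := by
    intro g hg v
    obtain ⟨γ, h⟩ := hr2 (g • v)
    rw [h]
    have h1 := hA.dist_eq g⁻¹ (g • v) ((γ : G) • o)
    rw [inv_smul_smul, ← mul_smul] at h1
    rw [← h1]
    exact hr1 v ⟨g⁻¹ * γ, Γ.mul_mem (Γ.inv_mem hg) γ.2⟩
  let S : Set ℕ := {n | ∃ v ∈ F, r v = n}
  have hS : S.Nonempty := ⟨_, o, ho, rfl⟩
  obtain ⟨v, hv, hvr⟩ := Nat.sInf_mem hS
  have hmin : ∀ a ∈ F, r v ≤ r a := by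
    intro a ha
    rw [hvr]
    exact Nat.sInf_le ⟨a, ha, rfl⟩
  -- minimizers are close to each other
  have hclose : ∀ a ∈ F, ∀ b ∈ F, r a = r v → r b = r v → T.dist a b ≤ 1 := by
    intro a ha b hb hra hrb
    by_contra hcon
    obtain ⟨m, hm1, hm2⟩ := exists_mid hA.tree a b 1 (by omega)
    have hmF : m ∈ F := hF a ha b hb m (by omega)
    obtain ⟨γ, hγ⟩ := hr2 m
    have h1 := hmin m hmF
    have c1 := dist_comm (G := T) (u := b) (v := m)
    rcases sep hA.tree (a := a) (m := m) (b := b) (by omega) ((γ : G) • o) with h | h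
    · have := hr1 a γ
      omega
    · have := hr1 b γ
      omega
  refine ⟨v, hv, fun g hg => ?_⟩
  by_contra hne
  have hrg : ∀ (g : G), g ∈ Γ → r (g • v) = r v := fun g hg =>
    le_antisymm (hr3 g hg v) (hmin _ (hinv g hg v hv))
  have h1 : T.dist v (g • v) ≤ 1 := hclose v hv _ (hinv g hg v hv) rfl (hrg g hg)
  have h1' : T.dist v (g • v) = 1 := by
    have : T.dist v (g • v) ≠ 0 := fun h0 => hne (hA.tree.connected.dist_eq_zero_iff.1 h0).symm
    omega
  have hadj : T.Adj v (g • v) := dist_eq_one_iff_adj.1 h1'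
  have h2 : T.dist v ((g * g) • v) ≤ 1 :=
    hclose v hv _ (hinv _ (Γ.mul_mem hg hg) v hv) rfl (hrg _ (Γ.mul_mem hg hg))
  have h3 : T.dist (g • v) ((g * g) • v) = 1 := by
    rw [mul_smul, hA.dist_eq, h1']
  have h4 : T.dist v ((g * g) • v) = 0 := by
    have c1 := dist_comm (G := T) (u := v) (v := (g * g) • v)
    have c2 := dist_comm (G := T) (u := g • v) (v := (g * g) • v)
    rcases hA.tree.dist_eq_dist_add_one_of_adj ((g * g) • v) hadj with h | h <;> omega
  have h5 : v = (g * g) • v := hA.tree.connected.dist_eq_zero_iff.1 h4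
  rw [mul_smul] at h5
  exact hA.noinv g v (g • v) hadj ⟨rfl, h5.symm⟩

end Pool.Agent.U123.FA
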